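import Mathlib
import Pool.Agent.W966.Vf.Stms

set_option autoImplicit false

namespace Pool.Agent.W597.VF

open MvPolynomial Pool.Agent.W966.Vf

/-- Evaluating the substituted polynomial at the origin. -/
theorem eval_zero_aeval {K σ Ω : Type} [Field K] [Field Ω] [Algebra K Ω] (T : Set σ)
    (w₀ : σ → Ω) (sub : σ → MvPolynomial ↥(Tᶜ) Ω) (h1 : ∀ c ∈ T, sub c = C (w₀ c))
    (h2 : ∀ c : ↥(Tᶜ), sub c = C (w₀ c) + X c) (p : MvPolynomial σ K) :
    MvPolynomial.eval (fun _ : ↥(Tᶜ) => (0 : Ω)) (aeval sub p) = aeval w₀ p := by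
  have key : ((MvPolynomial.aeval (fun _ : ↥(Tᶜ) => (0 : Ω))).restrictScalars K).comp
      (aeval sub : MvPolynomial σ K →ₐ[K] MvPolynomial ↥(Tᶜ) Ω) = aeval w₀ := by
    apply MvPolynomial.algHom_ext
    intro c
    by_cases hc : c ∈ T
    · simp [h1 c hc]
    · have := h2 ⟨c, hc⟩
      simp only at this
      simp [this]
  have := DFunLike.congr_fun key p
  simpa [MvPolynomial.coe_aeval_eq_eval] using this

/-- In a domain over an algebraically closed field, algebraic elements are scalars. -/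
theorem scalar_of_root {Ω D : Type} [Field Ω] [IsAlgClosed Ω] [CommRing D] [IsDomain D]
    [Algebra Ω D] (t : D) (q : Polynomial Ω) (hq : q ≠ 0) (ht : Polynomial.aeval t q = 0) :
    ∃ c : Ω, t = algebraMap Ω D c := by
  have hint : IsIntegral Ω t := IsAlgebraic.isIntegral ⟨q, hq, ht⟩
  have hirr := minpoly.irreducible hint
  have hdeg := IsAlgClosed.degree_eq_one_of_irreducible Ω hirr
  obtain ⟨c, hc⟩ := minpoly.mem_range_of_degree_eq_one Ω t hdeg
  exact ⟨c, hc.symm⟩

theorem isolated_core {K σ J Ω : Type} [Field K] [Field Ω] [IsAlgClosed Ω] [Algebra K Ω]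
    (T : Set σ) (w₀ : σ → Ω) (𝔓 : Ideal (MvPolynomial σ K))
    (hw : ∀ p : MvPolynomial σ K, aeval w₀ p = 0 ↔ p ∈ 𝔓) (Eq : J → MvPolynomial σ K)
    (hmin : 𝔓 ∈ (Ideal.span (Set.range Eq)).minimalPrimes)
    (halg : ∀ v ∉ T, IsAlgebraic (Algebra.adjoin K (w₀ '' T)) (w₀ v))
    (sub : σ → MvPolynomial ↥(Tᶜ) Ω) (h1 : ∀ c ∈ T, sub c = C (w₀ c))
    (h2 : ∀ c : ↥(Tᶜ), sub c = C (w₀ c) + X c) :
    IsolatedAt (fun j => aeval sub (Eq j)) := by
  have hev := eval_zero_aeval (K := K) T w₀ sub h1 h2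
  have hspan : Ideal.span (Set.range Eq) ≤ 𝔓 := hmin.1.2
  refine ⟨?_, ?_⟩
  · intro j
    change MvPolynomial.eval (fun _ : ↥(Tᶜ) => (0 : Ω)) (aeval sub (Eq j)) = 0
    rw [hev, hw]
    exact hspan (Ideal.subset_span ⟨j, rfl⟩)
  · intro 𝔭 hp hle hE
    -- the contraction of `𝔭`
    set θ : MvPolynomial σ K →ₐ[K] MvPolynomial ↥(Tᶜ) Ω := aeval sub with hθ
    have hQ : (𝔭.comap θ.toRingHom).IsPrime := Ideal.comap_isPrime _ _
    have hQ𝔓 : 𝔭.comap θ.toRingHom ≤ 𝔓 := by
      intro p hpp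
      have h3 : θ p ∈ 𝔭 := hpp
      have h4 : MvPolynomial.eval (fun _ : ↥(Tᶜ) => (0 : Ω)) (θ p) = 0 := hle h3
      rw [hev, hw] at h4
      exact h4
    have hspQ : Ideal.span (Set.range Eq) ≤ 𝔭.comap θ.toRingHom := by
      rw [Ideal.span_le]
      rintro _ ⟨j, rfl⟩
      exact hE j
    have h𝔓Q : 𝔓 ≤ 𝔭.comap θ.toRingHom := hmin.2 ⟨hQ, hspQ⟩ hQ𝔓
    have hX : ∀ v : ↥(Tᶜ), (X v : MvPolynomial ↥(Tᶜ) Ω) ∈ 𝔭 := by
      intro v
      obtain ⟨q, hq0, hq⟩ := halg v v.2
      -- lift the coefficients of `q`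
      have hlift : ∀ b : Algebra.adjoin K (w₀ '' T), ∃ p : MvPolynomial T K,
          aeval (fun c : T => w₀ c) p = (b : Ω) := by
        rintro ⟨b, hb⟩
        change ∃ p : MvPolynomial T K, aeval (fun c : T => w₀ c) p = b
        have : w₀ '' T = Set.range (fun c : T => w₀ c) := by
          rw [Set.image_eq_range]
        rw [this, Algebra.adjoin_range_eq_range_aeval] at hb
        obtain ⟨p, hp⟩ := hb
        exact ⟨p, hp⟩
      choose L hL using hlift
      let P : MvPolynomial σ K :=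
        ∑ i ∈ Finset.range (q.natDegree + 1), rename (fun c : T => (c : σ)) (L (q.coeff i)) *
          X (v : σ) ^ i
      have hP : P ∈ 𝔓 := by
        rw [← hw]
        simp only [P, map_sum, map_mul, map_pow, aeval_X, aeval_rename]
        rw [Polynomial.aeval_eq_sum_range] at hq
        rw [← hq]
        refine Finset.sum_congr rfl fun i _ => ?_
        rw [Algebra.smul_def]
        congr 1
        exact hL (q.coeff i)
      have hP2 : θ P ∈ 𝔭 := h𝔓Q hP
      have hren : ∀ p : MvPolynomial T K, θ (rename (fun c : T => (c : σ)) p) =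
          C (aeval (fun c : T => w₀ c) p) := by
        intro p
        rw [hθ, aeval_rename]
        have h5 : (sub ∘ fun c : T => (c : σ)) =
            fun c : T => algebraMap Ω (MvPolynomial ↥(Tᶜ) Ω) (w₀ c) := by
          funext c
          exact h1 c c.2
        rw [h5]
        exact MvPolynomial.aeval_algebraMap_apply _ (fun c : T => w₀ c) p
      have hθP : θ P = ∑ i ∈ Finset.range (q.natDegree + 1),
          C ((q.coeff i : Algebra.adjoin K (w₀ '' T)) : Ω) * (C (w₀ v) + X v) ^ i := by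
        simp only [P, map_sum, map_mul, map_pow, hren, hL]
        refine Finset.sum_congr rfl fun i _ => ?_
        rw [hθ, aeval_X, h2 v]
      have := hp
      have : IsDomain (MvPolynomial ↥(Tᶜ) Ω ⧸ 𝔭) := Ideal.Quotient.isDomain 𝔭
      let q' : Polynomial Ω := q.map (algebraMap (Algebra.adjoin K (w₀ '' T)) Ω)
      have hq'0 : q' ≠ 0 := by
        rw [Polynomial.map_ne_zero_iff]
        · exact hq0
        · exact Subtype.coe_injective
      have hroot : Polynomial.aeval (Ideal.Quotient.mk 𝔭 (C (w₀ v) + X v)) q' = 0 := by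
        have h6 : Ideal.Quotient.mk 𝔭 (θ P) = 0 := Ideal.Quotient.eq_zero_iff_mem.2 hP2
        rw [hθP] at h6
        rw [Polynomial.aeval_def, Polynomial.eval₂_map, Polynomial.eval₂_eq_sum_range, ← h6,
          map_sum]
        refine Finset.sum_congr rfl fun i _ => ?_
        rw [map_mul, map_pow]
        rfl
      obtain ⟨c, hc⟩ := scalar_of_root _ q' hq'0 hroot
      have h7 : C (w₀ v) + X v - C c ∈ 𝔭 := by
        rw [← Ideal.Quotient.eq_zero_iff_mem, map_sub, hc, sub_eq_zero]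
        rfl
      have h8 : MvPolynomial.eval (fun _ : ↥(Tᶜ) => (0 : Ω)) (C (w₀ v) + X v - C c) = 0 := hle h7
      simp only [map_sub, map_add, eval_C, eval_X, add_zero] at h8
      have h9 : w₀ v = c := sub_eq_zero.1 h8
      rw [← h9] at h7
      simpa using h7
    apply le_antisymm hle
    intro p hp0
    have hp0' : MvPolynomial.eval (fun _ : ↥(Tᶜ) => (0 : Ω)) p = 0 := hp0
    have key : (Ideal.Quotient.mk 𝔭) =
        ((Ideal.Quotient.mk 𝔭).comp C).comp (MvPolynomial.eval (fun _ : ↥(Tᶜ) => (0 : Ω))) := by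
      apply MvPolynomial.ringHom_ext
      · intro r
        simp
      · intro v
        simp only [RingHom.comp_apply, eval_X, map_zero]
        exact Ideal.Quotient.eq_zero_iff_mem.2 (hX v)
    have := DFunLike.congr_fun key p
    rw [RingHom.comp_apply, hp0', map_zero] at this
    exact Ideal.Quotient.eq_zero_iff_mem.1 this

theorem iso : Pool.Agent.W966.Vf.S_ISO := by
  classical
  intro K σ ι J _ _ _ _ x Eq 𝔓 hmin hx
  have hP : 𝔓.IsPrime := hmin.1.1
  have : IsDomain (MvPolynomial σ K ⧸ 𝔓) := Ideal.Quotient.isDomain 𝔓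
  let A := MvPolynomial σ K ⧸ 𝔓
  let Ω := AlgebraicClosure (FractionRing A)
  let f : A →ₐ[K] Ω := IsScalarTower.toAlgHom K A Ω
  have hf : Function.Injective f := by
    change Function.Injective (algebraMap A Ω)
    rw [IsScalarTower.algebraMap_eq A (FractionRing A) Ω]
    exact (algebraMap (FractionRing A) Ω).injective.comp (IsFractionRing.injective A _)
  let w₀ : σ → Ω := fun c => f (Ideal.Quotient.mk 𝔓 (X c))
  have hw1 : ∀ p : MvPolynomial σ K, aeval w₀ p = f (Ideal.Quotient.mk 𝔓 p) := by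
    intro p
    have : (aeval w₀ : MvPolynomial σ K →ₐ[K] Ω) = f.comp (Ideal.Quotient.mkₐ K 𝔓) := by
      apply MvPolynomial.algHom_ext
      intro c
      rw [aeval_X]
      rfl
    rw [this]
    rfl
  have hw : ∀ p : MvPolynomial σ K, aeval w₀ p = 0 ↔ p ∈ 𝔓 := by
    intro p
    rw [hw1, map_eq_zero_iff f hf, Ideal.Quotient.eq_zero_iff_mem]
  -- independence of the given coordinates
  have hxw : AlgebraicIndependent K (fun i => w₀ (x i)) := hx.map' hf
  have hinj : Function.Injective x := by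
    have h1 := hxw.injective
    intro a b hab
    apply h1
    simp only [hab]
  have hR : AlgebraicIndepOn K w₀ (Set.range x) := by
    have e := Equiv.ofInjective x hinj
    rw [AlgebraicIndepOn]
    rw [← algebraicIndependent_equiv (Equiv.ofInjective x hinj)]
    exact hxw
  let 𝒮 : Set (Set σ) := {T | Set.range x ⊆ T ∧ AlgebraicIndepOn K w₀ T}
  have h𝒮 : 𝒮.Finite := Set.toFinite _
  obtain ⟨T, hT⟩ := h𝒮.exists_maximal ⟨Set.range x, subset_rfl, hR⟩
  have hTx : Set.range x ⊆ T := hT.prop.1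
  have hTI : AlgebraicIndepOn K w₀ T := hT.prop.2
  have halg : ∀ v ∉ T, IsAlgebraic (Algebra.adjoin K (w₀ '' T)) (w₀ v) := by
    intro v hv
    by_contra hcon
    have h3 : AlgebraicIndepOn K w₀ (insert v T) :=
      (AlgebraicIndepOn.insert_iff hv).2 ⟨hTI, hcon⟩
    have h4 : insert v T ⊆ T := hT.le_of_ge ⟨hTx.trans (Set.subset_insert v T), h3⟩
      (Set.subset_insert v T)
    exact hv (h4 (Set.mem_insert v T))
  refine ⟨T, Ω, inferInstance, inferInstance, w₀, fun i => hTx ⟨i, rfl⟩, hw, hTI, ?_⟩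
  apply isolated_core T w₀ 𝔓 hw Eq hmin halg
  · intro c hc
    have : ¬ c ∈ Tᶜ := by simpa using hc
    simp [hc]
  · intro c
    have hc : (c : σ) ∉ T := c.2
    simp [hc]

end Pool.Agent.W597.VF
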